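import Mathlib
import Pool.Agent.W93.TD.Stm

/-!
# The cases `m = 0` and `m = 1`
-/

set_option autoImplicit false

namespace Pool.Agent.W398.TD

open Finset W93.TD

theorem main0 : Main 0 := by
  refine ⟨fun _ => 0, by decide, ?_⟩
  intro d
  refine ⟨fun _ => Nat.zero_le d, fun _ => ?_⟩
  refine ⟨fun _ => 1, ?_, Or.inl (fun x => by simp), fun _ => 1, ?_, ?_⟩
  · intro h
    have := congrFun h (fun _ => 0)
    revert this
    decide
  · intro S _
    have : S = ∅ := by
      apply Finset.eq_empty_of_forall_notMem
      intro x _
      exact absurd x.2 (by simp)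
    rw [this]
    simp
  · decide

theorem main1 : Main 1 := by
  refine ⟨fun x => x ⟨0, by norm_num⟩ * x ⟨1, by norm_num⟩, by decide, ?_⟩
  intro d
  constructor
  · rintro ⟨g, hg, hann, c, hc, hgc⟩
    by_contra hd
    have hd0 : d = 0 := by omega
    subst hd0
    have hc0 : ∀ S, S ≠ ∅ → c S = 0 := by
      intro S hS
      by_contra h
      have := hc S h
      exact hS (Finset.card_eq_zero.mp (Nat.le_zero.mp this))
    have hgx : ∀ x, g x = c ∅ := by
      intro x
      rw [hgc x, Finset.sum_eq_single ∅]
      · simp
      · intro S _ hS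
        rw [hc0 S hS, zero_mul]
      · intro h
        exact absurd (Finset.mem_univ _) h
    have hc1 : c ∅ ≠ 0 := by
      intro h
      apply hg
      funext x
      rw [hgx x, h]
      rfl
    rcases hann with h | h
    · have h1 := h (fun _ => 1)
      rw [hgx] at h1
      simp at h1
      exact hc1 h1
    · have h1 := h (fun _ => 0)
      rw [hgx] at h1
      simp at h1
      exact hc1 h1
  · intro hd
    refine ⟨fun x => x ⟨0, by norm_num⟩ + 1, ?_, Or.inl (by decide),
      fun S => if S = ∅ ∨ S = {⟨0, by norm_num⟩} then 1 else 0, ?_, by decide⟩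
    · intro h
      have := congrFun h (fun _ => 0)
      revert this
      decide
    · intro S hS
      refine le_trans ?_ hd
      by_contra hcard
      apply hS
      refine if_neg ?_
      rintro (rfl | rfl)
      · simp at hcard
      · simp at hcard

theorem t_SMALL : W93.TD.S_SMALL := ⟨main0, main1⟩

end Pool.Agent.W398.TD
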