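import Pool.Agent.W243.TD.Stm
import Pool.Agent.W252.GelG
import Pool.Agent.W669.GelA1

/-!
# Gelfond's method: auxiliary polynomials with many zeros (project TD, part AUX)
-/

set_option autoImplicit false

namespace Pool.Agent.W398.TD

open Polynomial Finset Module
open Pool.Agent.H301R2.TR (JG LamC LamF coef entG E1 card_JG entG_exp norm_natsum_le)
open Pool.Agent.W252
open Pool.Agent.W243.TD

theorem Sm_add {p : ℕ} {f g : ℕ → ℝ} (hf : Sm p f) (hg : Sm p g) : Sm p (fun M => f M + g M) := by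
  obtain ⟨C, hC, hf⟩ := hf
  obtain ⟨C', hC', hg⟩ := hg
  refine ⟨1 + C + C', by linarith, fun M hM => ⟨add_nonneg (hf M hM).1 (hg M hM).1, ?_⟩⟩
  have h1 := one_le_cast_pow hM p
  have hf2 := (hf M hM).2
  have hg2 := (hg M hM).2
  set u := (M : ℝ) ^ p with hu
  have h2 : Real.exp (C * u) ≤ Real.exp (C * u + C' * u) :=
    Real.exp_le_exp.2 (by nlinarith)
  have h3 : Real.exp (C' * u) ≤ Real.exp (C * u + C' * u) :=
    Real.exp_le_exp.2 (by nlinarith)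
  have h4 : (2 : ℝ) ≤ Real.exp 1 := by linarith [Real.add_one_le_exp (1 : ℝ)]
  calc f M + g M ≤ 2 * Real.exp (C * u + C' * u) := by linarith
    _ ≤ Real.exp 1 * Real.exp (C * u + C' * u) := by gcongr
    _ = Real.exp (1 + (C * u + C' * u)) := (Real.exp_add _ _).symm
    _ ≤ Real.exp ((1 + C + C') * u) := Real.exp_le_exp.2 (by nlinarith)

theorem shift_le (p n1 M : ℕ) (hM : 1 ≤ M) :
    (((M + n1 : ℕ) : ℝ)) ^ p ≤ (1 + n1 : ℝ) ^ p * (M : ℝ) ^ p := by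
  rw [← mul_pow]
  apply pow_le_pow_left₀ (Nat.cast_nonneg _)
  have h1 : (1 : ℝ) ≤ M := by exact_mod_cast hM
  have h2 : (0 : ℝ) ≤ n1 := Nat.cast_nonneg _
  push_cast
  nlinarith

theorem Sm_shift {p : ℕ} {f : ℕ → ℝ} (hf : Sm p f) (n1 : ℕ) : Sm p (fun M => f (M + n1)) := by
  obtain ⟨C, hC, hf⟩ := hf
  refine ⟨C * (1 + n1) ^ p, by positivity, fun M hM => ⟨(hf _ (by omega)).1, ?_⟩⟩
  refine (hf (M + n1) (by omega)).2.trans (Real.exp_le_exp.2 ?_)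
  rw [mul_assoc]
  exact mul_le_mul_of_nonneg_left (shift_le p n1 M hM) hC

theorem Po_shift {p : ℕ} {f : ℕ → ℝ} (hf : Po p f) (n1 : ℕ) : Po p (fun M => f (M + n1)) := by
  obtain ⟨C, hC, hf⟩ := hf
  refine ⟨C * (1 + n1) ^ p, by positivity, fun M hM => ⟨(hf _ (by omega)).1, ?_⟩⟩
  refine (hf (M + n1) (by omega)).2.trans ?_
  rw [mul_assoc]
  exact mul_le_mul_of_nonneg_left (shift_le p n1 M hM) hC

theorem Po_nat (a : ℕ) : Po a (fun n => ((n ^ a : ℕ) : ℝ)) := by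
  have := Po.pow a
  simpa using this

/-- Representation data. -/
theorem exists_RDx {θ : ℂ} (hθ : Transcendental ℚ θ) {w b l : ℕ} (A : Finset (Fin w)) (τ : ℕ)
    (γ : Fin w → Fin b → ℂ) (ω : Fin w → Fin l → ℂ) (χ : Fin b → Fin l → ℂ)
    (hγ : τ = 0 ∨ ∀ i j, Al θ (γ i j)) (hω : ∀ i ∈ A, ∀ p, Al θ (ω i p))
    (hχ : ∀ j p, Al θ (χ j p)) :
    ∃ R : RD θ, (τ = 0 ∨ ∀ i j, R.Rep 1 1 (γ i j)) ∧ (∀ i ∈ A, ∀ p, R.Rep 1 1 (ω i p)) ∧
      ∀ j p, R.Rep 1 1 (χ j p) := by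
  classical
  let J := (Fin w × Fin b) ⊕ (Fin w × Fin l) ⊕ (Fin b × Fin l)
  let f : J → ℂ := Sum.elim (fun p => if τ = 0 then 0 else γ p.1 p.2)
    (Sum.elim (fun p => if p.1 ∈ A then ω p.1 p.2 else 0) (fun p => χ p.1 p.2))
  let e := Fintype.equivFin J
  obtain ⟨R, hR⟩ := exists_RD hθ (fun k => f (e.symm k)) (by
    intro k
    rcases h : e.symm k with p | p | p
    · simp only [f, Sum.elim_inl]
      split_ifs with h0
      · exact isAlgebraic_zero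
      · exact (hγ.resolve_left h0) p.1 p.2
    · simp only [f, Sum.elim_inr, Sum.elim_inl]
      split_ifs with h0
      · exact hω _ h0 _
      · exact isAlgebraic_zero
    · simp only [f, Sum.elim_inr]
      exact hχ p.1 p.2)
  refine ⟨R, ?_, fun i hi p => ?_, fun j p => ?_⟩
  · rcases Nat.eq_zero_or_pos τ with h0 | h0
    · exact Or.inl h0
    · right
      intro i j
      have := hR (e (Sum.inl (i, j)))
      simpa [f, h0.ne'] using this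
  · have := hR (e (Sum.inr (Sum.inl (i, p))))
    simpa [f, hi] using this
  · have := hR (e (Sum.inr (Sum.inr (j, p))))
    simpa [f] using this

/-- the pigeonhole condition -/
theorem pig_of (w κ n J Δ : ℕ) (h4 : 4 * (J * Δ * 2 ^ (n ^ κ)) ≤ 2 ^ (2 * n ^ (2 * κ + 3)))
    (h1 : 1 ≤ J * Δ * 2 ^ (n ^ κ))
    (hJ : n ^ ((2 * κ + 3) * (w + 1) + 1) ≤ n ^ (2 * κ) * J) (hΔ : n ^ κ ≤ Δ)
    (hn : 2 ^ (w + 3) < n) :
    (2 * (J * Δ * 2 ^ (n ^ κ) * 2 ^ (2 * n ^ (2 * κ + 3))) + 1) ^ (2 * (2 * n ^ (2 * κ + 3)) ^ w) <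
      (2 ^ (n ^ κ) + 1) ^ (J * Δ) := by
  set Q := 2 * n ^ (2 * κ + 3) with hQ
  have hn1 : 1 ≤ n := by
    have : 0 < 2 ^ (w + 3) := by positivity
    omega
  have ha : 2 * (J * Δ * 2 ^ (n ^ κ) * 2 ^ Q) + 1 ≤ 2 ^ (2 * Q) := by
    have h2 : 1 ≤ 2 ^ Q := Nat.one_le_two_pow
    have h3 : 1 ≤ J * Δ * 2 ^ (n ^ κ) * 2 ^ Q := Nat.mul_pos h1 h2
    calc 2 * (J * Δ * 2 ^ (n ^ κ) * 2 ^ Q) + 1 ≤ 4 * (J * Δ * 2 ^ (n ^ κ) * 2 ^ Q) := by omega
      _ = (4 * (J * Δ * 2 ^ (n ^ κ))) * 2 ^ Q := by ring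
      _ ≤ 2 ^ Q * 2 ^ Q := Nat.mul_le_mul_right _ h4
      _ = 2 ^ (2 * Q) := by rw [← pow_add]; ring_nf
  have hb : 4 * Q ^ (w + 1) < n ^ κ * (J * Δ) := by
    calc 4 * Q ^ (w + 1) = 2 ^ (w + 3) * n ^ ((2 * κ + 3) * (w + 1)) := by
          rw [hQ, mul_pow, ← pow_mul]; ring
      _ < n * n ^ ((2 * κ + 3) * (w + 1)) := by
          apply Nat.mul_lt_mul_of_pos_right hn
          positivity
      _ = n ^ ((2 * κ + 3) * (w + 1) + 1) := by rw [pow_succ]; ring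
      _ ≤ n ^ (2 * κ) * J := hJ
      _ = n ^ κ * (J * n ^ κ) := by rw [two_mul, pow_add]; ring
      _ ≤ n ^ κ * (J * Δ) := by gcongr
  calc (2 * (J * Δ * 2 ^ (n ^ κ) * 2 ^ Q) + 1) ^ (2 * Q ^ w) ≤ (2 ^ (2 * Q)) ^ (2 * Q ^ w) :=
        Nat.pow_le_pow_left ha _
    _ = 2 ^ (4 * Q ^ (w + 1)) := by rw [← pow_mul]; ring_nf
    _ < 2 ^ (n ^ κ * (J * Δ)) := Nat.pow_lt_pow_right (by norm_num) hb
    _ = (2 ^ (n ^ κ)) ^ (J * Δ) := by rw [← pow_mul]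
    _ ≤ (2 ^ (n ^ κ) + 1) ^ (J * Δ) := Nat.pow_le_pow_left (by omega) _

/-- one step: a small value of an integer polynomial at `θ` -/
theorem step_n (hcon : S_constr) (hrep : S_rep) {θ : ℂ} (hθ : Transcendental ℚ θ) (R : RD θ)
    {w b l : ℕ} (A : Finset (Fin w)) (γ : Fin w → Fin b → ℂ) (ω : Fin w → Fin l → ℂ)
    (K0 Mm S T D N Q : ℕ)
    (hγ : T = 0 ∨ ∀ i j, R.Rep 1 1 (γ i j)) (hω : ∀ i ∈ A, ∀ p, R.Rep 1 1 (ω i p))
    (hχ : ∀ j p, R.Rep 1 1 (Complex.exp (∑ i, γ i j * ω i p)))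
    (Θ Cx X W : ℝ) (hΘ1 : 1 ≤ Θ) (hΘ : ‖θ‖ ≤ Θ) (hCγ : ∀ i j, ‖γ i j‖ ≤ Cx)
    (hCω : ∀ i p, ‖ω i p‖ ≤ Cx) (hX : 1 ≤ X) (hW : 1 ≤ W) (hXb : b * Cx * Mm ≤ X)
    (hWb : l * Cx * S ≤ W) (hD : w * (T + K0) + b * (l * (S * Mm)) ≤ D) (hΔ : 1 ≤ R.δ * D)
    (hN : 1 ≤ N)
    (hpig : (2 * (Fintype.card (JG (fun i => if i ∈ A then K0 else 0) b Mm) * (R.δ * D) * N *
      2 ^ Q) + 1) ^ (2 * Q ^ w) <
      (N + 1) ^ (Fintype.card (JG (fun i => if i ∈ A then K0 else 0) b Mm) * (R.δ * D)))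
    (K B : ℝ) (hK : K = ((R.ν : ℝ) + 1) ^ (b * l + 2 * w + 2) *
      ((((1 + l * S : ℕ) : ℝ) ^ K0) * ((1 + b * Mm + K0 : ℕ) : ℝ) ^ T) ^ w)
    (hB : B = (Fintype.card (JG (fun i => if i ∈ A then K0 else 0) b Mm) : ℝ) * (R.δ * D : ℕ) *
      (K * R.H ^ D) * (N : ℕ))
    (hno : ∀ p : JG (fun i => if i ∈ A then K0 else 0) b Mm → ℂ, p ≠ 0 →
      ∃ (t : Fin w → ℕ) (s : Fin l → ℕ), (∀ i, t i ≤ T) ∧ (∀ q, s q ≤ S) ∧
        ∑ j, p j * entG γ ω (fun j q => Complex.exp (∑ i, γ i j * ω i q))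
          (fun i => (j.1 i : ℕ)) (fun i => (j.2 i : ℕ)) t s ≠ 0) :
    ∃ P : ℤ[X], aeval θ P ≠ 0 ∧ P.natDegree ≤ (R.ν + 1) * (2 * (R.δ * D)) ∧
      (∀ i, |(P.coeff i : ℝ)| ≤ (B ^ 2) ^ (R.ν + 1)) ∧
      ‖aeval θ P‖ * ‖R.v 0‖ ≤ ‖aeval θ R.b‖ ^ D * ((1 / 2 : ℝ) ^ Q *
        (((2 * Q ^ w + Fintype.card (JG (fun i => if i ∈ A then K0 else 0) b Mm) * (R.δ * D) * N *
          w : ℕ) : ℝ) * (3 * E1 (K0 + T) (X * W)) ^ w * Θ ^ (R.δ * D))) *
        (∑ i, ‖R.v i‖) * (B ^ 2 * Θ ^ (2 * (R.δ * D))) ^ R.ν := by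
  have hinjθ : ∀ p : ℤ[X], aeval θ p = 0 → p = 0 := by
    intro p hp
    by_contra hne
    apply hθ
    refine ⟨p.map (Int.castRingHom ℚ), ?_, ?_⟩
    · intro h
      apply hne
      exact (Polynomial.map_eq_zero_iff (Int.cast_injective (α := ℚ))).1 h
    · have : aeval θ (p.map (algebraMap ℤ ℚ)) = aeval θ p := Polynomial.aeval_map_algebraMap ℚ θ p
      exact this.trans hp
  have hki : ∀ (j : JG (fun i => if i ∈ A then K0 else 0) b Mm) (i : Fin w),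
      (j.1 i : ℕ) ≤ (if i ∈ A then K0 else 0) := fun j i => Nat.lt_succ_iff.mp (j.1 i).2
  have hkK : ∀ (j : JG (fun i => if i ∈ A then K0 else 0) b Mm) (i : Fin w),
      (j.1 i : ℕ) ≤ K0 := by
    intro j i
    refine (hki j i).trans ?_
    split_ifs <;> simp
  have hmj : ∀ (j : JG (fun i => if i ∈ A then K0 else 0) b Mm) (q : Fin b),
      (j.2 q : ℕ) ≤ Mm := fun j q => Nat.lt_succ_iff.mp (j.2 q).2
  obtain ⟨p, hp0, hpdeg, hpco, hpval⟩ := hcon w (JG (fun i => if i ∈ A then K0 else 0) b Mm)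
    (fun j i => (j.1 i : ℕ)) (fun j i => ∑ q, γ i q * (((j.2 q : ℕ)) : ℂ)) θ Θ X W (X * W)
    (K0 + T) T Q (R.δ * D) N hΘ1 hΘ hX hW le_rfl
    (by
      intro j i
      exact (norm_natsum_le Cx Mm (γ i) (fun q => (j.2 q : ℕ)) (hCγ i) (hmj j)).trans hXb)
    (by
      intro j i
      exact Nat.add_le_add_right (hkK j i) T) hΔ hN hpig
  have hc0 : (fun j => aeval θ (p j)) ≠ 0 := by
    intro h
    apply hp0
    funext j
    exact hinjθ _ (congrFun h j)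
  obtain ⟨t, s, ht, hs, hne⟩ := hno _ hc0
  set c : JG (fun i => if i ∈ A then K0 else 0) b Mm → ℂ := fun j =>
    entG γ ω (fun j q => Complex.exp (∑ i, γ i j * ω i q))
          (fun i => (j.1 i : ℕ)) (fun i => (j.2 i : ℕ)) t s with hc
  have hcj : ∀ j, c j = ∏ i, (LamC (∑ q, γ i q * (((j.2 q : ℕ)) : ℂ)) (j.1 i : ℕ) (t i)
      (∑ p, ω i p * (s p : ℂ)) *
        Complex.exp ((∑ q, γ i q * (((j.2 q : ℕ)) : ℂ)) * (∑ p, ω i p * (s p : ℂ)))) := by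
    intro j
    have h := entG_exp (r := 0) γ ω (fun j q => Complex.exp (∑ i, γ i j * ω i q))
      (fun i _ => i.elim0) (fun i _ => i.elim0) ω (by intro j p; simp)
      (fun i => (j.1 i : ℕ)) (fun i => (j.2 i : ℕ)) t s (fun i => Or.inr (fun p => rfl))
    rw [hc]
    simp only
    rw [h, Fintype.prod_sum_type]
    simp
  have hsmall : ‖∑ j, aeval θ (p j) * c j‖ ≤ (1 / 2 : ℝ) ^ Q *
        (((2 * Q ^ w + Fintype.card (JG (fun i => if i ∈ A then K0 else 0) b Mm) * (R.δ * D) * N *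
          w : ℕ) : ℝ) * (3 * E1 (K0 + T) (X * W)) ^ w * Θ ^ (R.δ * D)) := by
    have h := hpval t (fun i => ∑ p, ω i p * (s p : ℂ)) ht (by
      intro i
      exact (norm_natsum_le Cx S (ω i) s (hCω i) hs).trans hWb)
    have e : ∑ j, aeval θ (p j) * c j = ∑ j, aeval θ (p j) *
        ∏ i, (LamC (∑ q, γ i q * (((j.2 q : ℕ)) : ℂ)) (j.1 i : ℕ) (t i)
      (∑ p, ω i p * (s p : ℂ)) *
        Complex.exp ((∑ q, γ i q * (((j.2 q : ℕ)) : ℂ)) * (∑ p, ω i p * (s p : ℂ)))) :=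
      Finset.sum_congr rfl (fun j _ => by rw [hcj j])
    rw [e]
    exact h
  have hν : (1 : ℝ) ≤ (R.ν + 1 : ℝ) := by
    have : (0 : ℝ) ≤ R.ν := Nat.cast_nonneg _
    linarith
  have hK1 : 1 ≤ K := by
    rw [hK]
    apply one_le_mul_of_one_le_of_one_le (one_le_pow₀ hν)
    apply one_le_pow₀
    apply one_le_mul_of_one_le_of_one_le
    · apply one_le_pow₀
      exact_mod_cast (by omega : 1 ≤ 1 + l * S)
    · apply one_le_pow₀
      exact_mod_cast (by omega : 1 ≤ 1 + b * Mm + K0)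
  have hH := R.hH
  have hN' : (1 : ℝ) ≤ N := by exact_mod_cast hN
  have hΔ' : (1 : ℝ) ≤ ((R.δ * D : ℕ) : ℝ) := by exact_mod_cast hΔ
  have hJ' : (1 : ℝ) ≤ (Fintype.card (JG (fun i => if i ∈ A then K0 else 0) b Mm) : ℝ) := by
    have : 0 < Fintype.card (JG (fun i => if i ∈ A then K0 else 0) b Mm) := by
      rw [card_JG]; positivity
    exact_mod_cast this
  have hHD : 1 ≤ R.H ^ D := one_le_pow₀ hH
  have hprod : 1 ≤ (Fintype.card (JG (fun i => if i ∈ A then K0 else 0) b Mm) : ℝ) *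
      (R.δ * D : ℕ) * (K * R.H ^ D) :=
    one_le_mul_of_one_le_of_one_le (one_le_mul_of_one_le_of_one_le hJ' hΔ')
      (one_le_mul_of_one_le_of_one_le hK1 hHD)
  obtain ⟨P, hP0, hPdeg, hPcoef, hPval⟩ := normStep hθ R c D K hK1
    (fun j => by
      have h := hrep θ R w b l γ ω (fun j q => Complex.exp (∑ i, γ i j * ω i q)) K0 Mm T S
        (fun i => (j.1 i : ℕ)) (fun i => (j.2 i : ℕ)) t s hγ
        (by
          intro i
          by_cases hi : i ∈ A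
          · exact Or.inr (hω i hi)
          · left
            have h1 := hki j i
            simp only [hi, if_false] at h1
            simpa using h1) hχ (hkK j) (hmj j) ht hs
      rw [hK]
      exact h.lift hD) p hpdeg B (by rw [hB]; exact le_mul_of_one_le_right (by linarith) hN')
    (by
      intro j i
      have h1 : |((p j).coeff i : ℝ)| ≤ (N : ℝ) := by
        have := hpco j i
        exact_mod_cast this
      rw [hB]
      exact h1.trans (le_mul_of_one_le_left (by linarith) hprod)) hne Θ hΘ1 hΘ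
  refine ⟨P, hP0, hPdeg, hPcoef, hPval.trans ?_⟩
  have h16 : 0 ≤ ∑ i, ‖R.v i‖ := Finset.sum_nonneg (fun _ _ => norm_nonneg _)
  have hB0 : 0 ≤ B := by rw [hB]; exact mul_nonneg (by linarith) (by linarith)
  have hΘ0 : 0 ≤ Θ := by linarith
  gcongr

theorem exists_bd {w b l : ℕ} (γ : Fin w → Fin b → ℂ) (ω : Fin w → Fin l → ℂ) :
    ∃ Cx : ℝ, 1 ≤ Cx ∧ (∀ i j, ‖γ i j‖ ≤ Cx) ∧ ∀ i p, ‖ω i p‖ ≤ Cx := by
  refine ⟨1 + ((∑ ij : Fin w × Fin b, ‖γ ij.1 ij.2‖) + ∑ ij : Fin w × Fin l, ‖ω ij.1 ij.2‖),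
    ?_, ?_⟩
  · have : 0 ≤ (∑ ij : Fin w × Fin b, ‖γ ij.1 ij.2‖) + ∑ ij : Fin w × Fin l, ‖ω ij.1 ij.2‖ := by
      positivity
    linarith
  · have n3 : 0 ≤ ∑ ij : Fin w × Fin l, ‖ω ij.1 ij.2‖ := Finset.sum_nonneg fun _ _ => norm_nonneg _
    have n4 : 0 ≤ ∑ ij : Fin w × Fin b, ‖γ ij.1 ij.2‖ := Finset.sum_nonneg fun _ _ => norm_nonneg _
    refine ⟨fun i j => ?_, fun i j => ?_⟩
    · have := Finset.single_le_sum (f := fun ij : Fin w × Fin b => ‖γ ij.1 ij.2‖)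
        (fun _ _ => norm_nonneg _) (Finset.mem_univ (i, j))
      linarith
    · have := Finset.single_le_sum (f := fun ij : Fin w × Fin l => ‖ω ij.1 ij.2‖)
        (fun _ _ => norm_nonneg _) (Finset.mem_univ (i, j))
      linarith

theorem J_ge (w b κ μ n : ℕ) (A : Finset (Fin w)) :
    n ^ (A.card * κ + b * μ) ≤
      Fintype.card (JG (fun i => if i ∈ A then n ^ κ else 0) b (n ^ μ)) := by
  rw [card_JG]
  have h1 : (n ^ κ) ^ A.card ≤ ∏ i, ((if i ∈ A then n ^ κ else 0) + 1) := by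
    have e : (n ^ κ) ^ A.card = ∏ i ∈ A, n ^ κ := by simp
    rw [e]
    calc ∏ i ∈ A, n ^ κ ≤ ∏ i ∈ A, ((if i ∈ A then n ^ κ else 0) + 1) := by
          apply Finset.prod_le_prod'
          intro i hi
          simp [hi]
      _ ≤ ∏ i, ((if i ∈ A then n ^ κ else 0) + 1) := by
          apply Finset.prod_le_prod_of_subset_of_one_le' (Finset.subset_univ _)
          intro i _ _
          omega
  have h2 : (n ^ μ) ^ b ≤ (n ^ μ + 1) ^ b := Nat.pow_le_pow_left (by omega) _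
  calc n ^ (A.card * κ + b * μ) = (n ^ κ) ^ A.card * (n ^ μ) ^ b := by
        rw [← pow_mul, ← pow_mul, ← pow_add]; ring_nf
    _ ≤ _ := Nat.mul_le_mul h1 h2

theorem J_po (w b κ μ : ℕ) (A : Finset (Fin w)) : Po (κ * w + μ * b) (fun n =>
    (Fintype.card (JG (fun i => if i ∈ A then n ^ κ else 0) b (n ^ μ)) : ℝ)) := by
  refine ((Po.pow (κ * w + μ * b)).const_mul (2 ^ w * 2 ^ b) (by positivity)).mono
    (fun n _ => Nat.cast_nonneg _) (fun n hn => ?_)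
  rw [card_JG]
  have h1 : ∏ i, ((if i ∈ A then n ^ κ else 0) + 1) ≤ (2 * n ^ κ) ^ w := by
    have hn' : 1 ≤ n ^ κ := Nat.one_le_pow _ _ hn
    calc ∏ i, ((if i ∈ A then n ^ κ else 0) + 1) ≤ ∏ _i : Fin w, (2 * n ^ κ) := by
          apply Finset.prod_le_prod'
          intro i _
          split_ifs <;> omega
      _ = _ := by simp
  have h2 : (n ^ μ + 1) ^ b ≤ (2 * n ^ μ) ^ b := by
    have hn' : 1 ≤ n ^ μ := Nat.one_le_pow _ _ hn
    exact Nat.pow_le_pow_left (by omega) _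
  calc ((((∏ i, ((if i ∈ A then n ^ κ else 0) + 1)) * (n ^ μ + 1) ^ b : ℕ)) : ℝ)
      ≤ (((2 * n ^ κ) ^ w * (2 * n ^ μ) ^ b : ℕ) : ℝ) := by exact_mod_cast Nat.mul_le_mul h1 h2
    _ = _ := by
        push_cast
        rw [mul_pow, mul_pow, ← pow_mul, ← pow_mul, pow_add]
        ring

theorem aux_pos (hcon : S_constr) (hrep : S_rep) (θ : ℂ) (hθ : Transcendental ℚ θ)
    (w b l : ℕ) (A : Finset (Fin w)) (τ : ℕ) (γ : Fin w → Fin b → ℂ)
    (ω : Fin w → Fin l → ℂ) (hγ : τ = 0 ∨ ∀ i j, Al θ (γ i j)) (hω : ∀ i ∈ A, ∀ p, Al θ (ω i p))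
    (hχ : ∀ j p, Al θ (Complex.exp (∑ i, γ i j * ω i p)))
    (κ μ σ : ℕ) (hκ : μ + σ = κ)
    (hcount : (2 * κ + 3) * (w + 1) + 1 ≤ A.card * κ + b * μ + 2 * κ)
    (c : ℕ) (hc : 1 ≤ c) (n0 : ℕ) :
    ∃ n ≥ n0, ∃ p : JG (fun i => if i ∈ A then n ^ κ else 0) b (n ^ μ) → ℂ, p ≠ 0 ∧
      ∀ (t : Fin w → ℕ) (s : Fin l → ℕ), (∀ i, t i ≤ τ * (c * n ^ κ)) →
        (∀ q, s q ≤ c * n ^ σ) →
        ∑ j, p j * entG γ ω (fun j q => Complex.exp (∑ i, γ i j * ω i q))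
          (fun i => (j.1 i : ℕ)) (fun i => (j.2 i : ℕ)) t s = 0 := by
  by_contra hcon'
  push Not at hcon'
  obtain ⟨R, hRγ, hRω, hRχ⟩ := exists_RDx hθ A τ γ ω
    (fun j q => Complex.exp (∑ i, γ i j * ω i q)) hγ hω hχ
  obtain ⟨Cx, hCx, hCγ, hCω⟩ := exists_bd γ ω
  set Θ : ℝ := 1 + ‖θ‖ with hΘ
  have hΘ1 : 1 ≤ Θ := by linarith [norm_nonneg θ]
  have hΘθ : ‖θ‖ ≤ Θ := by linarith
  let T : ℕ → ℕ := fun n => τ * (c * n ^ κ)
  let S : ℕ → ℕ := fun n => c * n ^ σ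
  let D : ℕ → ℕ := fun n => w * (T n + n ^ κ) + b * (l * (S n * n ^ μ)) + n ^ κ
  let J : ℕ → ℕ := fun n => Fintype.card (JG (fun i => if i ∈ A then n ^ κ else 0) b (n ^ μ))
  let N : ℕ → ℕ := fun n => 2 ^ (n ^ κ)
  let Q : ℕ → ℕ := fun n => 2 * n ^ (2 * κ + 3)
  let X : ℕ → ℝ := fun n => (1 + b) * Cx * (n ^ μ : ℕ)
  let W : ℕ → ℝ := fun n => (1 + l) * Cx * (S n : ℕ)
  let K : ℕ → ℝ := fun n => ((R.ν : ℝ) + 1) ^ (b * l + 2 * w + 2) *
      ((((1 + l * S n : ℕ) : ℝ) ^ (n ^ κ)) * ((1 + b * n ^ μ + n ^ κ : ℕ) : ℝ) ^ T n) ^ w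
  let B : ℕ → ℝ := fun n => (J n : ℝ) * (R.δ * D n : ℕ) * (K n * R.H ^ D n) * (N n : ℕ)
  -- polynomial bounds
  have pT : Po κ (fun n => (T n : ℝ)) := by
    refine ((Po_nat κ).const_mul ((τ * c : ℕ) : ℝ) (by positivity)).mono
      (fun n _ => Nat.cast_nonneg _) (fun n _ => ?_)
    show ((τ * (c * n ^ κ) : ℕ) : ℝ) ≤ _
    push_cast
    apply le_of_eq
    ring
  have pS : Po σ (fun n => (S n : ℝ)) := by
    refine ((Po_nat σ).const_mul (c : ℝ) (by positivity)).mono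
      (fun n _ => Nat.cast_nonneg _) (fun n _ => ?_)
    show ((c * n ^ σ : ℕ) : ℝ) ≤ _
    push_cast
    exact le_rfl
  have pSM : Po κ (fun n => (S n : ℝ) * ((n ^ μ : ℕ) : ℝ)) :=
    (pS.mul (Po_nat μ)).weaken (by omega)
  have pD : Po κ (fun n => (D n : ℝ)) := by
    have h1 := (((pT.add (Po_nat κ)).const_mul (w : ℝ) (by positivity)).add
      (pSM.const_mul ((b * l : ℕ) : ℝ) (by positivity))).add (Po_nat κ)
    refine h1.mono (fun n _ => Nat.cast_nonneg _) (fun n _ => ?_)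
    show ((w * (T n + n ^ κ) + b * (l * (S n * n ^ μ)) + n ^ κ : ℕ) : ℝ) ≤ _
    push_cast
    apply le_of_eq
    ring
  have pδD : Po κ (fun n => ((R.δ * D n : ℕ) : ℝ)) := by
    refine (pD.const_mul (R.δ : ℝ) (Nat.cast_nonneg _)).mono (fun n _ => Nat.cast_nonneg _)
      (fun n _ => ?_)
    push_cast
    exact le_rfl
  have p2δD : Po κ (fun n => ((2 * (R.δ * D n) : ℕ) : ℝ)) := by
    refine (pδD.const_mul (2 : ℝ) (by norm_num)).mono (fun n _ => Nat.cast_nonneg _)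
      (fun n _ => ?_)
    push_cast
    exact le_rfl
  have pJ : Po (κ * w + μ * b) (fun n => (J n : ℝ)) := J_po w b κ μ A
  have pQ : Po (2 * κ + 3) (fun n => (Q n : ℝ)) := by
    refine ((Po_nat (2 * κ + 3)).const_mul 2 (by norm_num)).mono (fun n _ => Nat.cast_nonneg _)
      (fun n _ => ?_)
    show ((2 * n ^ (2 * κ + 3) : ℕ) : ℝ) ≤ _
    push_cast
    exact le_rfl
  have pY : Po κ (fun n => X n * W n) := by
    have h1 : Po μ (fun n => X n) :=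
      (Po_nat μ).const_mul ((1 + b) * Cx) (by positivity)
    have h2 : Po σ (fun n => W n) := pS.const_mul ((1 + l) * Cx) (by positivity)
    exact (h1.mul h2).weaken hκ.le
  have pH : Po κ (fun n => ((n ^ κ + T n : ℕ) : ℝ)) := by
    refine ((Po_nat κ).add pT).mono (fun n _ => Nat.cast_nonneg _) (fun n _ => ?_)
    push_cast
    exact le_rfl
  have p1S : Po κ (fun n => ((1 + l * S n : ℕ) : ℝ)) := by
    refine ((Po.const κ 1 zero_le_one).add ((pS.const_mul (l : ℝ) (by positivity)).weaken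
      (b := κ) (by omega))).mono (fun n _ => Nat.cast_nonneg _) (fun n _ => ?_)
    push_cast
    exact le_rfl
  have p1K : Po κ (fun n => ((1 + b * n ^ μ + n ^ κ : ℕ) : ℝ)) := by
    refine (((Po.const κ 1 zero_le_one).add (((Po_nat μ).const_mul (b : ℝ)
      (by positivity)).weaken (b := κ) (by omega))).add (Po_nat κ)).mono
      (fun n _ => Nat.cast_nonneg _) (fun n _ => ?_)
    push_cast
    exact le_rfl
  -- exponential bounds
  have sN : Sm (κ + 1) (fun n => ((N n : ℕ) : ℝ)) := by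
    refine (Sm.powvar (Po.const 0 2 (by norm_num)) (Po_nat κ) le_rfl).mono
      (fun n _ => Nat.cast_nonneg _) (fun n _ => ?_)
    show ((2 ^ (n ^ κ) : ℕ) : ℝ) ≤ _
    push_cast
    exact le_rfl
  have hH := R.hH
  have sHD : Sm (κ + 1) (fun n => R.H ^ D n) :=
    Sm.powvar (Po.const 0 R.H (by linarith)) pD le_rfl
  have sK : Sm (κ + 1) K :=
    (Sm.ofPo (Po.const 0 ((R.ν + 1 : ℝ) ^ (b * l + 2 * w + 2)) (by positivity)) (by omega)).mul
      (((Sm.powvar p1S (Po_nat κ) le_rfl).mul (Sm.powvar p1K pT le_rfl)).powc w)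
  have sJ : Sm (κ + 1) (fun n => (J n : ℝ)) := Sm.ofPo pJ (by omega)
  have sΔ : Sm (κ + 1) (fun n => ((R.δ * D n : ℕ) : ℝ)) := Sm.ofPo pδD (by omega)
  have sB : Sm (κ + 1) B := ((sJ.mul sΔ).mul (sK.mul sHD)).mul sN
  have sΘ : Sm (κ + 1) (fun n => Θ ^ (R.δ * D n)) :=
    Sm.powvar (Po.const 0 Θ (by linarith)) pδD le_rfl
  have sΘ2 : Sm (κ + 1) (fun n => Θ ^ (2 * (R.δ * D n))) :=
    Sm.powvar (Po.const 0 Θ (by linarith)) p2δD le_rfl
  have sb : Sm (κ + 1) (fun n => ‖aeval θ R.b‖ ^ D n) :=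
    Sm.powvar (Po.const 0 _ (norm_nonneg _)) pD le_rfl
  have sJN : Sm (κ + 1) (fun n => (J n : ℝ) * ((R.δ * D n : ℕ) : ℝ) * (N n : ℕ)) :=
    (sJ.mul sΔ).mul sN
  have sQ : Sm (κ + 1) (fun n => ((2 * Q n ^ w + J n * (R.δ * D n) * N n * w : ℕ) : ℝ)) := by
    refine (Sm_add ((Sm.ofPo (Po.const 0 2 (by norm_num)) (by omega)).mul
      ((Sm.ofPo pQ (by omega)).powc w)) (sJN.mul (Sm.ofPo (Po.const 0 (w : ℝ) (Nat.cast_nonneg _))
        (by omega)))).mono (fun n _ => Nat.cast_nonneg _) (fun n _ => ?_)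
    push_cast
    exact le_rfl
  have sE : Sm (κ + 1) (fun n => (3 * E1 (n ^ κ + T n) (X n * W n)) ^ w) := by
    apply Sm.powc
    apply (Sm.ofPo (Po.const 0 3 (by norm_num)) (by omega)).mul
    unfold E1
    exact (Sm.fact pH le_rfl).mul (Sm.exp (pY.const_mul 6 (by norm_num)) (by omega))
  have sRHS : Sm (κ + 1) (fun n => ‖aeval θ R.b‖ ^ D n *
        (((2 * Q n ^ w + J n * (R.δ * D n) * N n * w : ℕ) : ℝ) *
          (3 * E1 (n ^ κ + T n) (X n * W n)) ^ w * Θ ^ (R.δ * D n)) *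
        (∑ i, ‖R.v i‖) * (B n ^ 2 * Θ ^ (2 * (R.δ * D n))) ^ R.ν) :=
    ((sb.mul ((sQ.mul sE).mul sΘ)).mul (Sm.ofPo (Po.const 0 _
      (Finset.sum_nonneg (fun _ _ => norm_nonneg _))) (by omega))).mul
      (((sB.powc 2).mul sΘ2).powc R.ν)
  have sco : Sm (κ + 1) (fun n => (B n ^ 2) ^ (R.ν + 1)) := (sB.powc 2).powc (R.ν + 1)
  obtain ⟨C1, hC1, hR1⟩ := sJN
  obtain ⟨n2, hn2⟩ := exists_nat_ge (2 * C1)
  obtain ⟨E, hE⟩ : ∃ E : ℕ, 2 ^ (w + 3) = E := ⟨_, rfl⟩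
  set n1 : ℕ := n0 + (E + 1) + n2 + 2 with hn1
  have hDge : ∀ n, n ^ κ ≤ D n := fun n => Nat.le_add_left _ _
  have hΔge : ∀ n, n ^ κ ≤ R.δ * D n := fun n =>
    (hDge n).trans (Nat.le_mul_of_pos_left _ R.hδ)
  have key : ∀ n : ℕ, n1 ≤ n → ∃ P : ℤ[X], aeval θ P ≠ 0 ∧
      P.natDegree ≤ (R.ν + 1) * (2 * (R.δ * D n)) ∧
      (∀ i, |(P.coeff i : ℝ)| ≤ (B n ^ 2) ^ (R.ν + 1)) ∧
      ‖aeval θ P‖ * ‖R.v 0‖ ≤ ‖aeval θ R.b‖ ^ D n * ((1 / 2 : ℝ) ^ Q n *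
        (((2 * Q n ^ w + J n * (R.δ * D n) * N n * w : ℕ) : ℝ) *
          (3 * E1 (n ^ κ + T n) (X n * W n)) ^ w * Θ ^ (R.δ * D n))) *
        (∑ i, ‖R.v i‖) * (B n ^ 2 * Θ ^ (2 * (R.δ * D n))) ^ R.ν := by
    intro n hn
    have hnpos : 1 ≤ n := by omega
    have hnκ : 1 ≤ n ^ κ := Nat.one_le_pow _ _ hnpos
    have hnμ : 1 ≤ n ^ μ := Nat.one_le_pow _ _ hnpos
    have hnσ : 1 ≤ S n := Nat.mul_pos hc (Nat.one_le_pow _ _ hnpos)
    have hnR : (1 : ℝ) ≤ n := by exact_mod_cast hnpos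
    have hb0 : (0 : ℝ) ≤ b := Nat.cast_nonneg _
    have hl0 : (0 : ℝ) ≤ l := Nat.cast_nonneg _
    have hnμ' : (1 : ℝ) ≤ ((n ^ μ : ℕ) : ℝ) := by exact_mod_cast hnμ
    have hnσ' : (1 : ℝ) ≤ (S n : ℝ) := by exact_mod_cast hnσ
    have hJpos : 1 ≤ J n := (Nat.one_le_pow _ _ hnpos).trans (J_ge w b κ μ n A)
    have hΔpos : 1 ≤ R.δ * D n := hnκ.trans (hΔge n)
    have hNpos : 1 ≤ N n := Nat.one_le_two_pow
    refine step_n hcon hrep hθ R A γ ω (n ^ κ) (n ^ μ) (S n) (T n) (D n) (N n) (Q n) ?_ hRω hRχ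
      Θ Cx (X n) (W n) hΘ1 hΘθ hCγ hCω ?_ ?_ ?_ ?_ ?_ hΔpos hNpos ?_ (K n) (B n) rfl rfl ?_
    · rcases hRγ with h | h
      · left
        show τ * _ = 0
        rw [h, zero_mul]
      · exact Or.inr h
    · show 1 ≤ (1 + b) * Cx * ((n ^ μ : ℕ) : ℝ)
      apply one_le_mul_of_one_le_of_one_le _ hnμ'
      nlinarith
    · show 1 ≤ (1 + l) * Cx * (S n : ℝ)
      apply one_le_mul_of_one_le_of_one_le _ hnσ'
      nlinarith
    · show b * Cx * ((n ^ μ : ℕ) : ℝ) ≤ (1 + b) * Cx * ((n ^ μ : ℕ) : ℝ)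
      apply mul_le_mul_of_nonneg_right _ (by linarith)
      nlinarith
    · show l * Cx * (S n : ℝ) ≤ (1 + l) * Cx * (S n : ℝ)
      apply mul_le_mul_of_nonneg_right _ (by linarith)
      nlinarith
    · exact Nat.le_add_right _ _
    · refine pig_of w κ n (J n) (R.δ * D n) ?_ (Nat.mul_pos (Nat.mul_pos hJpos hΔpos) hNpos) ?_
        (hΔge n) (by rw [hE]; omega)
      · have h1 := (hR1 n hnpos).2
        set m : ℕ := n ^ (2 * κ + 3) with hm
        have hm2 : 2 ≤ m := by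
          calc 2 ≤ n := by omega
            _ = n ^ 1 := (pow_one n).symm
            _ ≤ n ^ (2 * κ + 3) := Nat.pow_le_pow_right hnpos (by omega)
        have h2 : (4 : ℝ) ≤ 2 ^ m := by
          calc (4 : ℝ) = 2 ^ 2 := by norm_num
            _ ≤ 2 ^ m := pow_le_pow_right₀ (by norm_num) hm2
        have h3 : Real.exp (C1 * (n : ℝ) ^ (κ + 1)) ≤ 2 ^ m := by
          have e : (2 : ℝ) ^ m = Real.exp (m * Real.log 2) := by
            rw [Real.exp_nat_mul, Real.exp_log (by norm_num)]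
          rw [e]
          apply Real.exp_le_exp.2
          have h5 : (2 : ℝ) * C1 ≤ n := hn2.trans (by exact_mod_cast (by omega : n2 ≤ n))
          have h6 : (1 : ℝ) / 2 ≤ Real.log 2 := by
            have := Real.log_two_gt_d9
            linarith
          have h7 : (n : ℝ) * (n : ℝ) ^ (κ + 1) ≤ m := by
            rw [hm]
            push_cast
            rw [← pow_succ']
            exact pow_le_pow_right₀ hnR (by omega)
          have h8 : (0 : ℝ) ≤ (n : ℝ) ^ (κ + 1) := by positivity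
          have h9 : (0 : ℝ) ≤ m := Nat.cast_nonneg _
          calc C1 * (n : ℝ) ^ (κ + 1) ≤ (n / 2) * (n : ℝ) ^ (κ + 1) := by
                apply mul_le_mul_of_nonneg_right _ h8
                linarith
            _ = ((n : ℝ) * (n : ℝ) ^ (κ + 1)) * (1 / 2) := by ring
            _ ≤ m * Real.log 2 := mul_le_mul h7 h6 (by norm_num) h9
        have h4 : (4 : ℝ) * ((J n : ℝ) * ((R.δ * D n : ℕ) : ℝ) * (N n : ℕ)) ≤ 2 ^ (2 * m) := by
          calc (4 : ℝ) * ((J n : ℝ) * ((R.δ * D n : ℕ) : ℝ) * (N n : ℕ))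
              ≤ 2 ^ m * 2 ^ m := by
                apply mul_le_mul h2 (h1.trans h3) _ (by positivity)
                positivity
            _ = 2 ^ (2 * m) := by rw [← pow_add]; ring_nf
        have h5 : ((4 * (J n * (R.δ * D n) * N n) : ℕ) : ℝ) ≤ ((2 ^ (2 * m) : ℕ) : ℝ) := by
          push_cast
          push_cast at h4
          exact h4
        have h6 : 4 * (J n * (R.δ * D n) * N n) ≤ 2 ^ (2 * m) := by exact_mod_cast h5
        exact h6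
      · calc n ^ ((2 * κ + 3) * (w + 1) + 1) ≤ n ^ (A.card * κ + b * μ + 2 * κ) :=
              Nat.pow_le_pow_right hnpos hcount
          _ = n ^ (2 * κ) * n ^ (A.card * κ + b * μ) := by rw [pow_add]; ring
          _ ≤ n ^ (2 * κ) * J n := Nat.mul_le_mul_left _ (J_ge w b κ μ n A)
    · intro p hp
      exact hcon' n (by omega) p hp
  choose! P hP0 hPdeg hPco hPval using key
  obtain ⟨C2, hC2, hR2⟩ := Sm_shift sRHS n1
  obtain ⟨C3, hC3, hR3⟩ := Sm_shift sco n1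
  obtain ⟨C4, hC4, hR4⟩ := Po_shift pδD n1
  have hv0 : 0 < ‖R.v 0‖ := norm_pos_iff.2 R.v0_ne
  set C5 : ℝ := |Real.log ‖R.v 0‖| with hC5
  have hC50 : 0 ≤ C5 := abs_nonneg _
  set C : ℝ := 1 + C2 + C3 + 2 * (R.ν + 1) * C4 + C5 with hC
  have hC20 : 0 ≤ 2 * ((R.ν : ℝ) + 1) * C4 := by positivity
  refine crit_of θ (Pool.Agent.W669.GelA1.coprime_bound θ) (κ + 1) (by omega) C (by linarith)
    (fun M => P (M + n1)) (fun M _ => hP0 _ (by omega)) ?_ ?_ ?_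
  · intro M hM
    have h1 : ((P (M + n1)).natDegree : ℝ) ≤
        (((R.ν + 1) * (2 * (R.δ * D (M + n1))) : ℕ) : ℝ) := by
      exact_mod_cast hPdeg (M + n1) (by omega)
    have h2 : (((R.ν + 1) * (2 * (R.δ * D (M + n1))) : ℕ) : ℝ) = 2 * ((R.ν : ℝ) + 1) *
        ((R.δ * D (M + n1) : ℕ) : ℝ) := by push_cast; ring
    have hM1 : (1 : ℝ) ≤ M := by exact_mod_cast hM
    calc ((P (M + n1)).natDegree : ℝ) ≤ 2 * ((R.ν : ℝ) + 1) *
          ((R.δ * D (M + n1) : ℕ) : ℝ) := by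
          rw [← h2]; exact h1
      _ ≤ 2 * ((R.ν : ℝ) + 1) * (C4 * (M : ℝ) ^ κ) :=
          mul_le_mul_of_nonneg_left (hR4 M hM).2 (by positivity)
      _ = (2 * ((R.ν : ℝ) + 1) * C4) * (M : ℝ) ^ κ := by ring
      _ ≤ C * (M : ℝ) ^ (κ + 1) := by
          apply mul_le_mul _ (pow_le_pow_right₀ hM1 (by omega)) (by positivity) (by linarith)
          linarith
  · intro M hM i
    refine (hPco (M + n1) (by omega) i).trans ((hR3 M hM).2.trans (Real.exp_le_exp.2 ?_))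
    apply mul_le_mul_of_nonneg_right _ (by positivity)
    linarith
  · intro M hM
    have hM1 : (1 : ℝ) ≤ M := by exact_mod_cast hM
    have h1 := hPval (M + n1) (by omega)
    have h2 := (hR2 M hM).2
    set n := M + n1 with hn
    have h3 : (1 / 2 : ℝ) ^ Q n ≤ Real.exp (-(M : ℝ) ^ (2 * (κ + 1) + 1)) := by
      have h4 : (1 / 2 : ℝ) ^ Q n = (1 / 4 : ℝ) ^ (n ^ (2 * κ + 3)) := by
        show (1 / 2 : ℝ) ^ (2 * n ^ (2 * κ + 3)) = _
        rw [pow_mul]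
        norm_num
      have h5 : (1 / 4 : ℝ) ≤ Real.exp (-1) := by
        rw [Real.exp_neg, one_div]
        apply inv_anti₀ (Real.exp_pos _)
        have := Real.exp_one_lt_d9
        linarith
      rw [h4]
      calc (1 / 4 : ℝ) ^ (n ^ (2 * κ + 3)) ≤ Real.exp (-1) ^ (n ^ (2 * κ + 3)) :=
            pow_le_pow_left₀ (by norm_num) h5 _
        _ = Real.exp (-((n ^ (2 * κ + 3) : ℕ) : ℝ)) := by
            rw [← Real.exp_nat_mul]; ring_nf
        _ ≤ Real.exp (-(M : ℝ) ^ (2 * (κ + 1) + 1)) := by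
            apply Real.exp_le_exp.2
            apply neg_le_neg
            have h6 : M ^ (2 * (κ + 1) + 1) ≤ n ^ (2 * κ + 3) := by
              have : 2 * (κ + 1) + 1 = 2 * κ + 3 := by ring
              rw [this]
              exact Nat.pow_le_pow_left (by omega) _
            exact_mod_cast h6
    have h6 : Real.exp (-C5) ≤ ‖R.v 0‖ := by
      calc Real.exp (-C5) ≤ Real.exp (Real.log ‖R.v 0‖) :=
            Real.exp_le_exp.2 (neg_abs_le _)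
        _ = ‖R.v 0‖ := Real.exp_log hv0
    have h7 : ‖aeval θ (P n)‖ * Real.exp (-C5) ≤
        Real.exp (-(M : ℝ) ^ (2 * (κ + 1) + 1)) * Real.exp (C2 * (M : ℝ) ^ (κ + 1)) := by
      calc ‖aeval θ (P n)‖ * Real.exp (-C5) ≤ ‖aeval θ (P n)‖ * ‖R.v 0‖ := by gcongr
        _ ≤ _ := h1
        _ = (1 / 2 : ℝ) ^ Q n * (‖aeval θ R.b‖ ^ D n *
        (((2 * Q n ^ w + J n * (R.δ * D n) * N n * w : ℕ) : ℝ) *
          (3 * E1 (n ^ κ + T n) (X n * W n)) ^ w * Θ ^ (R.δ * D n)) *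
        (∑ i, ‖R.v i‖) * (B n ^ 2 * Θ ^ (2 * (R.δ * D n))) ^ R.ν) := by ring
        _ ≤ _ := mul_le_mul h3 h2 (hR2 M hM).1 (Real.exp_nonneg _)
    calc ‖aeval θ (P n)‖
        = (‖aeval θ (P n)‖ * Real.exp (-C5)) * Real.exp C5 := by
          rw [mul_assoc, ← Real.exp_add]
          simp
      _ ≤ (Real.exp (-(M : ℝ) ^ (2 * (κ + 1) + 1)) * Real.exp (C2 * (M : ℝ) ^ (κ + 1))) *
          Real.exp C5 := mul_le_mul_of_nonneg_right h7 (Real.exp_nonneg _)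
      _ = Real.exp (C2 * (M : ℝ) ^ (κ + 1) + C5 - (M : ℝ) ^ (2 * (κ + 1) + 1)) := by
          rw [← Real.exp_add, ← Real.exp_add]; ring_nf
      _ ≤ Real.exp (C * (M : ℝ) ^ (κ + 1) - (M : ℝ) ^ (2 * (κ + 1) + 1)) := by
          apply Real.exp_le_exp.2
          have h8 : C5 ≤ C5 * (M : ℝ) ^ (κ + 1) := le_mul_of_one_le_right hC50
            (one_le_pow₀ hM1)
          have h9 : (C2 + C5) * (M : ℝ) ^ (κ + 1) ≤ C * (M : ℝ) ^ (κ + 1) := by
            apply mul_le_mul_of_nonneg_right _ (by positivity)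
            linarith
          linarith

theorem main : S_constr → S_rep → S_aux := by
  intro hcon hrep θ hθ w b l A τ _ γ ω hγ hω hχ κ μ σ hκ hcount c n0
  obtain ⟨n, hn, p, hp, h⟩ := aux_pos hcon hrep θ hθ w b l A τ γ ω hγ hω hχ κ μ σ hκ hcount
    (c + 1) (by omega) n0
  refine ⟨n, hn, p, hp, fun t s ht hs => h t s (fun i => (ht i).trans ?_)
    (fun q => (hs q).trans ?_)⟩
  · exact Nat.mul_le_mul_left _ (Nat.mul_le_mul_right _ (by omega))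
  · exact Nat.mul_le_mul_right _ (by omega)

end Pool.Agent.W398.TD
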